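import Mathlib

set_option autoImplicit false

open Filter Topology MeasureTheory Set

set_option linter.unusedSectionVars false

namespace Pool.Agent.Cogen

variable {E : Type*} [NormedAddCommGroup E] [NormedSpace ℂ E] [CompleteSpace E]

/-- A contraction `C₀`-semigroup; only the values at `t ≥ 0` matter. -/
structure IsCSG (T : ℝ → E →L[ℂ] E) : Prop where
  zero : T 0 = 1
  add : ∀ s t : ℝ, 0 ≤ s → 0 ≤ t → T (s + t) = T s * T t
  cont : ∀ x : E, ContinuousOn (fun t : ℝ => T t x) (Set.Ici 0)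
  bound : ∀ t : ℝ, 0 ≤ t → ‖T t‖ ≤ 1

/-- The resolvent at `1` as a Laplace transform. -/
noncomputable def res (T : ℝ → E →L[ℂ] E) (x : E) : E :=
  ∫ t in Ioi (0 : ℝ), Real.exp (-t) • T t x

namespace IsCSG

variable {T : ℝ → E →L[ℂ] E}

lemma norm_apply_le (hT : IsCSG T) {t : ℝ} (ht : 0 ≤ t) (x : E) : ‖T t x‖ ≤ ‖x‖ := by
  calc ‖T t x‖ ≤ ‖T t‖ * ‖x‖ := (T t).le_opNorm x
    _ ≤ 1 * ‖x‖ := by gcongr; exact hT.bound t ht
    _ = ‖x‖ := one_mul _

lemma integrable (hT : IsCSG T) (x : E) :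
    IntegrableOn (fun t : ℝ => Real.exp (-t) • T t x) (Ioi 0) := by
  refine Integrable.mono' (g := fun t => Real.exp (-t) * ‖x‖) ?_ ?_ ?_
  · exact (integrableOn_exp_neg_Ioi 0).mul_const _
  · apply ContinuousOn.aestronglyMeasurable _ measurableSet_Ioi
    exact (Real.continuous_exp.comp continuous_neg).continuousOn.smul
      ((hT.cont x).mono Ioi_subset_Ici_self)
  · filter_upwards [ae_restrict_mem measurableSet_Ioi] with t ht
    rw [norm_smul, Real.norm_eq_abs, abs_of_pos (Real.exp_pos _)]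
    gcongr
    exact hT.norm_apply_le (le_of_lt ht) x

lemma res_add (hT : IsCSG T) (x y : E) : res T (x + y) = res T x + res T y := by
  unfold res
  rw [← integral_add (hT.integrable x) (hT.integrable y)]
  simp only [map_add, smul_add]

lemma res_smul (c : ℂ) (x : E) : res T (c • x) = c • res T x := by
  unfold res
  rw [← integral_smul]
  congr 1
  ext t
  rw [map_smul, smul_comm]

lemma norm_res_le (hT : IsCSG T) (x : E) : ‖res T x‖ ≤ 1 * ‖x‖ := by
  unfold res
  have h1 : ‖∫ t in Ioi (0 : ℝ), Real.exp (-t) • T t x‖ ≤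
      ∫ t in Ioi (0 : ℝ), Real.exp (-t) * ‖x‖ := by
    refine norm_integral_le_of_norm_le ((integrableOn_exp_neg_Ioi 0).mul_const _) ?_
    filter_upwards [ae_restrict_mem measurableSet_Ioi] with t ht
    rw [norm_smul, Real.norm_eq_abs, abs_of_pos (Real.exp_pos _)]
    gcongr
    exact hT.norm_apply_le (le_of_lt ht) x
  refine h1.trans ?_
  rw [integral_mul_const, integral_exp_neg_Ioi_zero]

/-- The resolvent as a bounded operator. -/
noncomputable def resL (hT : IsCSG T) : E →L[ℂ] E :=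
  LinearMap.mkContinuous
    { toFun := res T
      map_add' := hT.res_add
      map_smul' := fun c x => by simpa using res_smul (T := T) c x } 1 hT.norm_res_le

@[simp] lemma resL_apply (hT : IsCSG T) (x : E) : hT.resL x = res T x := rfl

lemma comm (hT : IsCSG T) {s t : ℝ} (hs : 0 ≤ s) (ht : 0 ≤ t) (x : E) :
    T s (T t x) = T t (T s x) := by
  have h1 := hT.add s t hs ht
  have h2 := hT.add t s ht hs
  rw [add_comm t s] at h2
  have h3 : T s * T t = T t * T s := h1.symm.trans h2
  exact congrArg (fun L : E →L[ℂ] E => L x) h3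

lemma apply_res (hT : IsCSG T) {h : ℝ} (hh : 0 ≤ h) (x : E) :
    T h (res T x) = res T (T h x) := by
  unfold res
  rw [← ContinuousLinearMap.integral_comp_comm (T h) (hT.integrable x)]
  refine setIntegral_congr_fun measurableSet_Ioi ?_
  intro t ht
  simp only
  rw [← Complex.coe_smul, map_smul, Complex.coe_smul, hT.comm hh (le_of_lt ht)]

lemma res_apply_eq (hT : IsCSG T) {h : ℝ} (hh : 0 ≤ h) (x : E) :
    res T (T h x) = Real.exp h • ∫ t in Ioi h, Real.exp (-t) • T t x := by
  unfold res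
  have h1 : (fun t : ℝ => t + h) ⁻¹' Ioi h = Ioi 0 := by
    ext t; simp
  have h2 := (measurePreserving_add_right (volume : Measure ℝ) h).setIntegral_preimage_emb
    (measurableEmbedding_addRight h) (fun t => Real.exp (-t) • T t x) (Ioi h)
  rw [h1] at h2
  rw [← h2, ← integral_smul]
  refine setIntegral_congr_fun measurableSet_Ioi ?_
  intro t ht
  have ht' : (0 : ℝ) ≤ t := le_of_lt ht
  simp only
  rw [hT.add t h ht' hh, smul_smul, ← Real.exp_add]
  have : h + -(t + h) = -t := by ring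
  rw [this]
  rfl

lemma apply_res_sub (hT : IsCSG T) {h : ℝ} (hh : 0 ≤ h) (x : E) :
    T h (res T x) - res T x =
      (Real.exp h - 1) • res T x - Real.exp h • ∫ t in (0 : ℝ)..h, Real.exp (-t) • T t x := by
  rw [hT.apply_res hh, hT.res_apply_eq hh]
  have h1 : res T x = (∫ t in (0 : ℝ)..h, Real.exp (-t) • T t x) +
      ∫ t in Ioi h, Real.exp (-t) • T t x := by
    unfold res
    rw [intervalIntegral.integral_interval_add_Ioi (hT.integrable x)
      ((hT.integrable x).mono_set (Ioi_subset_Ioi hh))]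
  rw [h1]
  module

lemma tendsto_integral (hT : IsCSG T) (x : E) :
    Tendsto (fun h : ℝ => h⁻¹ • ∫ t in (0 : ℝ)..h, Real.exp (-t) • T t x) (𝓝[>] 0) (𝓝 x) := by
  have hcont : ContinuousOn (fun t : ℝ => Real.exp (-t) • T t x) (Ici 0) :=
    (Real.continuous_exp.comp continuous_neg).continuousOn.smul (hT.cont x)
  have h0 : Real.exp (-0) • T 0 x = x := by
    simp [hT.zero]
  have hmeas : StronglyMeasurableAtFilter (fun t : ℝ => Real.exp (-t) • T t x)
      (𝓝[>] 0) volume :=
    ⟨Ioi 0, self_mem_nhdsWithin, (hT.integrable x).aestronglyMeasurable⟩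
  have hd := intervalIntegral.integral_hasDerivWithinAt_right (a := 0) (b := 0)
    (f := fun t : ℝ => Real.exp (-t) • T t x) (s := Ici 0) (t := Ioi 0)
    (by simp) hmeas ((hcont 0 (by simp)).mono Ioi_subset_Ici_self)
  rw [h0] at hd
  have hs := (hasDerivWithinAt_iff_tendsto_slope.mp hd)
  have hset : Ici (0 : ℝ) \ {0} = Ioi 0 := by
    ext y
    simp only [Set.mem_sdiff, mem_Ici, mem_singleton_iff, mem_Ioi]
    constructor
    · rintro ⟨h1, h2⟩; exact lt_of_le_of_ne h1 (Ne.symm h2)
    · intro h; exact ⟨h.le, h.ne'⟩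
  rw [hset] at hs
  refine hs.congr' ?_
  filter_upwards with h
  simp [slope_def_module]

lemma tendsto_exp_sub_one : Tendsto (fun h : ℝ => h⁻¹ * (Real.exp h - 1)) (𝓝[>] 0) (𝓝 1) := by
  have h1 := Real.hasDerivAt_exp 0
  rw [Real.exp_zero] at h1
  have h2 := (hasDerivWithinAt_iff_tendsto_slope' (s := Ioi (0 : ℝ)) (by simp)).mp
    h1.hasDerivWithinAt
  refine h2.congr' ?_
  filter_upwards with h
  simp [slope_def_field, div_eq_inv_mul]

lemma tendsto_apply_res (hT : IsCSG T) (x : E) :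
    Tendsto (fun h : ℝ => h⁻¹ • (T h (res T x) - res T x)) (𝓝[>] 0) (𝓝 (res T x - x)) := by
  have h1 : Tendsto (fun h : ℝ => (h⁻¹ * (Real.exp h - 1)) • res T x) (𝓝[>] 0)
      (𝓝 ((1 : ℝ) • res T x)) := tendsto_exp_sub_one.smul_const _
  have h2 : Tendsto (fun h : ℝ => Real.exp h • (h⁻¹ • ∫ t in (0 : ℝ)..h, Real.exp (-t) • T t x))
      (𝓝[>] 0) (𝓝 (Real.exp 0 • x)) := by
    refine Tendsto.smul ?_ (hT.tendsto_integral x)
    exact (Real.continuous_exp.tendsto 0).mono_left nhdsWithin_le_nhds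
  have h3 := h1.sub h2
  rw [Real.exp_zero, one_smul, one_smul] at h3
  refine h3.congr' ?_
  filter_upwards [self_mem_nhdsWithin] with h hh
  rw [hT.apply_res_sub (le_of_lt hh)]
  module

/-- The generator in terms of the resolvent. -/
theorem gen_iff (hT : IsCSG T) (x y : E) :
    Tendsto (fun t : ℝ => t⁻¹ • (T t x - x)) (𝓝[>] 0) (𝓝 y) ↔ x = res T (x - y) := by
  constructor
  · intro h
    have h1 : Tendsto (fun t : ℝ => hT.resL (t⁻¹ • (T t x - x))) (𝓝[>] 0) (𝓝 (hT.resL y)) :=
      (hT.resL.continuous.tendsto y).comp h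
    have h2 := hT.tendsto_apply_res x
    have h3 : Tendsto (fun t : ℝ => hT.resL (t⁻¹ • (T t x - x))) (𝓝[>] 0)
        (𝓝 (res T x - x)) := by
      refine h2.congr' ?_
      filter_upwards [self_mem_nhdsWithin] with t ht
      rw [← Complex.coe_smul, ← Complex.coe_smul, map_smul, map_sub, resL_apply, resL_apply,
        hT.apply_res (le_of_lt ht)]
    have h4 := tendsto_nhds_unique h1 h3
    have h5 : res T (x - y) = res T x - res T y := by
      have := map_sub hT.resL x y
      simpa using this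
    rw [h5]
    rw [resL_apply] at h4
    rw [h4]
    abel
  · intro h
    have h1 := hT.tendsto_apply_res (x - y)
    rw [← h] at h1
    have h2 : x - (x - y) = y := by abel
    rw [h2] at h1
    exact h1

lemma smul_inv_eq (t : ℝ) (z : E) : ((t : ℂ)⁻¹) • z = t⁻¹ • z := by
  rw [← Complex.ofReal_inv, Complex.coe_smul]

theorem gen_iff' (hT : IsCSG T) (x y : E) :
    Tendsto (fun t : ℝ => ((t : ℂ)⁻¹) • (T t x - x)) (𝓝[>] 0) (𝓝 y) ↔ x = res T (x - y) := by
  rw [← hT.gen_iff]
  simp only [smul_inv_eq]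

end IsCSG

end Pool.Agent.Cogen
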