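import Mathlib
import Pool.Agent.MP_413ec1_an.Resolvent

set_option autoImplicit false

open Filter Topology MeasureTheory Set
open scoped NNReal BoundedContinuousFunction

namespace Pool.Agent.Cogen

/-- The closed quadrant. -/
abbrev QQ := ℝ≥0 × ℝ≥0

/-- Bounded continuous functions on the quadrant. -/
abbrev BB := QQ →ᵇ ℂ

/-- The basic wave `exp (i (-t y + s / y))`. -/
noncomputable def ker (y : ℝ) (q : QQ) : ℂ :=
  Complex.exp (((-((q.1 : ℝ) * y) + (q.2 : ℝ) / y : ℝ) : ℂ) * Complex.I)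

lemma norm_ker (y : ℝ) (q : QQ) : ‖ker y q‖ = 1 := Complex.norm_exp_ofReal_mul_I _

lemma continuous_ker_right (y : ℝ) : Continuous (fun q : QQ => ker y q) := by
  unfold ker
  fun_prop

lemma continuousOn_ker_left (q : QQ) :
    ContinuousOn (fun y : ℝ => ker y q) (Icc (1/4) (1/2)) := by
  unfold ker
  apply Complex.continuous_exp.comp_continuousOn
  apply ContinuousOn.mul _ continuousOn_const
  apply Complex.continuous_ofReal.comp_continuousOn
  apply ContinuousOn.add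
  · fun_prop
  · apply ContinuousOn.div continuousOn_const continuousOn_id
    intro y hy
    have : (1/4 : ℝ) ≤ y := hy.1
    simp only [id]
    intro h
    rw [h] at this
    norm_num at this

/-- `φ` is the wave packet with amplitude `g`. -/
def Rep (φ : BB) (g : ℝ → ℂ) : Prop :=
  ContinuousOn g (Icc (1/4) (1/2)) ∧ ∀ q, φ q = ∫ y in (1/4 : ℝ)..(1/2), g y * ker y q

lemma uIcc_I : uIcc (1/4 : ℝ) (1/2) = Icc (1/4) (1/2) := uIcc_of_le (by norm_num)

lemma intble {g : ℝ → ℂ} (hg : ContinuousOn g (Icc (1/4) (1/2))) (q : QQ) :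
    IntervalIntegrable (fun y => g y * ker y q) volume (1/4) (1/2) := by
  apply ContinuousOn.intervalIntegrable
  rw [uIcc_I]
  exact hg.mul (continuousOn_ker_left q)

lemma exists_bd {g : ℝ → ℂ} (hg : ContinuousOn g (Icc (1/4) (1/2))) :
    ∃ C : ℝ, 0 ≤ C ∧ ∀ y ∈ Icc (1/4 : ℝ) (1/2), ‖g y‖ ≤ C := by
  obtain ⟨C, hC⟩ := isCompact_Icc.exists_bound_of_continuousOn hg
  exact ⟨C, (norm_nonneg _).trans (hC (1/4) ⟨le_refl _, by norm_num⟩), hC⟩

lemma norm_packet_le {g : ℝ → ℂ} {C : ℝ} (hC : ∀ y ∈ Icc (1/4 : ℝ) (1/2), ‖g y‖ ≤ C) (q : QQ) :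
    ‖∫ y in (1/4 : ℝ)..(1/2), g y * ker y q‖ ≤ C := by
  have hC0 : 0 ≤ C := (norm_nonneg _).trans (hC (1/4) ⟨le_refl _, by norm_num⟩)
  have h := intervalIntegral.norm_integral_le_of_norm_le_const (a := (1/4 : ℝ)) (b := 1/2)
    (f := fun y => g y * ker y q) (C := C) (by
      intro y hy
      rw [uIoc_of_le (by norm_num)] at hy
      rw [norm_mul, norm_ker, mul_one]
      exact hC y ⟨hy.1.le, hy.2⟩)
  refine h.trans ?_
  rw [abs_of_nonneg (by norm_num)]
  nlinarith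

lemma exists_rep {g : ℝ → ℂ} (hg : ContinuousOn g (Icc (1/4) (1/2))) : ∃ φ : BB, Rep φ g := by
  obtain ⟨C, hC0, hC⟩ := exists_bd hg
  have hcont : Continuous (fun q : QQ => ∫ y in (1/4 : ℝ)..(1/2), g y * ker y q) := by
    apply intervalIntegral.continuous_of_dominated_interval (bound := fun _ => C)
    · intro q
      exact (intble hg q).def'.aestronglyMeasurable
    · intro q
      filter_upwards with y hy
      rw [uIoc_of_le (by norm_num)] at hy
      rw [norm_mul, norm_ker, mul_one]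
      exact hC y ⟨hy.1.le, hy.2⟩
    · exact intervalIntegrable_const
    · filter_upwards with y hy
      exact continuous_const.mul (continuous_ker_right y)
  exact ⟨BoundedContinuousFunction.ofNormedAddCommGroup _ hcont C (norm_packet_le hC), hg,
    fun q => rfl⟩

lemma Rep.norm_le {φ : BB} {g : ℝ → ℂ} (h : Rep φ g) {C : ℝ}
    (hC : ∀ y ∈ Icc (1/4 : ℝ) (1/2), ‖g y‖ ≤ C) : ‖φ‖ ≤ C := by
  have hC0 : 0 ≤ C := (norm_nonneg _).trans (hC (1/4) ⟨le_refl _, by norm_num⟩)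
  rw [BoundedContinuousFunction.norm_le hC0]
  intro q
  rw [h.2 q]
  exact norm_packet_le hC q

lemma Rep.congr {φ : BB} {g g' : ℝ → ℂ} (h : Rep φ g)
    (hgg : ∀ y ∈ Icc (1/4 : ℝ) (1/2), g y = g' y) : Rep φ g' := by
  refine ⟨h.1.congr (fun y hy => (hgg y hy).symm), fun q => ?_⟩
  rw [h.2 q]
  apply intervalIntegral.integral_congr
  intro y hy
  rw [uIcc_I] at hy
  simp only [hgg y hy]

lemma Rep.unique {φ ψ : BB} {g : ℝ → ℂ} (h : Rep φ g) (h' : Rep ψ g) : φ = ψ := by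
  ext q
  rw [h.2 q, h'.2 q]

lemma Rep.add {φ ψ : BB} {g g' : ℝ → ℂ} (h : Rep φ g) (h' : Rep ψ g') :
    Rep (φ + ψ) (fun y => g y + g' y) := by
  refine ⟨h.1.add h'.1, fun q => ?_⟩
  rw [BoundedContinuousFunction.coe_add, Pi.add_apply, h.2 q, h'.2 q,
    ← intervalIntegral.integral_add (intble h.1 q) (intble h'.1 q)]
  apply intervalIntegral.integral_congr
  intro y _
  simp only
  ring

lemma Rep.smul {φ : BB} {g : ℝ → ℂ} (h : Rep φ g) (c : ℂ) :
    Rep (c • φ) (fun y => c * g y) := by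
  refine ⟨continuousOn_const.mul h.1, fun q => ?_⟩
  rw [BoundedContinuousFunction.smul_apply, h.2 q, smul_eq_mul,
    ← intervalIntegral.integral_const_mul]
  apply intervalIntegral.integral_congr
  intro y _
  simp only
  ring

lemma Rep.sub {φ ψ : BB} {g g' : ℝ → ℂ} (h : Rep φ g) (h' : Rep ψ g') :
    Rep (φ - ψ) (fun y => g y - g' y) := by
  have h1 := h.add (h'.smul (-1))
  have e : φ - ψ = φ + (-1 : ℂ) • ψ := by
    rw [neg_smul, one_smul, sub_eq_add_neg]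
  rw [e]
  exact h1.congr (fun y _ => by ring)

/-- The space of wave packets. -/
def FF : Submodule ℂ BB where
  carrier := {φ | ∃ g, Rep φ g}
  add_mem' := by
    rintro φ ψ ⟨g, hg⟩ ⟨g', hg'⟩
    exact ⟨_, hg.add hg'⟩
  zero_mem' := by
    refine ⟨fun _ => 0, continuousOn_const, fun q => ?_⟩
    simp
  smul_mem' := by
    rintro c φ ⟨g, hg⟩
    exact ⟨_, hg.smul c⟩

lemma mem_FF {φ : BB} : φ ∈ FF ↔ ∃ g, Rep φ g := Iff.rfl

/-- The Banach space: the closure of the wave packets. -/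
noncomputable abbrev EE : Submodule ℂ BB := FF.topologicalClosure

instance : CompleteSpace EE :=
  (Submodule.isClosed_topologicalClosure FF).completeSpace_coe

/-- Extension of a bounded operator of `BB` preserving `FF` to `EE`. -/
noncomputable def restr (L : BB →L[ℂ] BB) (h : ∀ φ ∈ FF, L φ ∈ FF) : EE →L[ℂ] EE :=
  (L.comp EE.subtypeL).codRestrict EE (fun x => by
    have hx : (x : BB) ∈ closure (FF : Set BB) := x.2
    have h1 : L (x : BB) ∈ closure (FF : Set BB) := map_mem_closure L.continuous hx h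
    exact h1)

@[simp] lemma restr_apply (L : BB →L[ℂ] BB) (h : ∀ φ ∈ FF, L φ ∈ FF) (x : EE) :
    ((restr L h x : EE) : BB) = L (x : BB) := rfl

lemma norm_restr_le (L : BB →L[ℂ] BB) (h : ∀ φ ∈ FF, L φ ∈ FF) (hL : ‖L‖ ≤ 1) :
    ‖restr L h‖ ≤ 1 := by
  refine ContinuousLinearMap.opNorm_le_bound _ zero_le_one (fun x => ?_)
  have h1 : ‖restr L h x‖ = ‖L (x : BB)‖ := rfl
  rw [h1]
  calc ‖L (x : BB)‖ ≤ ‖L‖ * ‖(x : BB)‖ := L.le_opNorm _
    _ ≤ 1 * ‖(x : BB)‖ := by gcongr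
    _ = 1 * ‖x‖ := rfl

lemma dense_FF : Dense {x : EE | (x : BB) ∈ FF} := by
  rw [Metric.dense_iff]
  intro x r hr
  have hx : (x : BB) ∈ closure (FF : Set BB) := x.2
  rw [Metric.mem_closure_iff] at hx
  obtain ⟨φ, hφ, hd⟩ := hx r hr
  refine ⟨⟨φ, FF.le_topologicalClosure hφ⟩, ?_, hφ⟩
  rw [Metric.mem_ball, dist_comm]
  exact hd

lemma exists_repE {g : ℝ → ℂ} (hg : ContinuousOn g (Icc (1/4) (1/2))) :
    ∃ φ : EE, Rep (φ : BB) g := by
  obtain ⟨φ, hφ⟩ := exists_rep hg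
  exact ⟨⟨φ, FF.le_topologicalClosure ⟨g, hφ⟩⟩, hφ⟩

/-- A family acting on wave packets by `exp (i t m(y))`. -/
structure MulSG (m : ℝ → ℝ) (U : ℝ → EE →L[ℂ] EE) : Prop where
  mcont : ContinuousOn m (Icc (1/4) (1/2))
  mbd : ∀ y ∈ Icc (1/4 : ℝ) (1/2), |m y| ≤ 4
  bound : ∀ t : ℝ, 0 ≤ t → ‖U t‖ ≤ 1
  act : ∀ t : ℝ, 0 ≤ t → ∀ (φ : EE) (g : ℝ → ℂ), Rep (φ : BB) g →
    Rep (U t φ : BB) (fun y => Complex.exp (Complex.I * ((t * m y : ℝ) : ℂ)) * g y)

lemma eq_of_rep {L L' : EE →L[ℂ] EE}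
    (h : ∀ (φ : EE) (g : ℝ → ℂ), Rep (φ : BB) g → L φ = L' φ) : L = L' := by
  have : (L : EE → EE) = L' := by
    refine Continuous.ext_on dense_FF L.continuous L'.continuous ?_
    rintro φ ⟨g, hg⟩
    exact h φ g hg
  exact DFunLike.coe_injective this

lemma exp_diff (a b : ℝ) :
    ‖Complex.exp (Complex.I * (a : ℂ)) - Complex.exp (Complex.I * (b : ℂ))‖ ≤ |a - b| := by
  have h1 : Complex.exp (Complex.I * (a : ℂ)) - Complex.exp (Complex.I * (b : ℂ)) =
      Complex.exp (Complex.I * (b : ℂ)) *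
        (Complex.exp (Complex.I * ((a - b : ℝ) : ℂ)) - 1) := by
    rw [mul_sub, ← Complex.exp_add, mul_one]
    congr 2
    push_cast
    ring
  rw [h1, norm_mul, mul_comm Complex.I (b : ℂ), Complex.norm_exp_ofReal_mul_I, one_mul]
  have h2 := Real.norm_exp_I_mul_ofReal_sub_one_le (x := a - b)
  rwa [Real.norm_eq_abs] at h2

namespace MulSG

variable {m : ℝ → ℝ} {U : ℝ → EE →L[ℂ] EE}

lemma apply_le (h : MulSG m U) {t : ℝ} (ht : 0 ≤ t) (x : EE) : ‖U t x‖ ≤ ‖x‖ := by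
  calc ‖U t x‖ ≤ ‖U t‖ * ‖x‖ := (U t).le_opNorm x
    _ ≤ 1 * ‖x‖ := by gcongr; exact h.bound t ht
    _ = ‖x‖ := one_mul _

lemma lip (h : MulSG m U) {φ : EE} {g : ℝ → ℂ} (hg : Rep (φ : BB) g) {C : ℝ}
    (hC : ∀ y ∈ Icc (1/4 : ℝ) (1/2), ‖g y‖ ≤ C) {s t : ℝ} (hs : 0 ≤ s) (ht : 0 ≤ t) :
    ‖U s φ - U t φ‖ ≤ 4 * |s - t| * C := by
  have h1 := (h.act s hs φ g hg).sub (h.act t ht φ g hg)
  have h2 : ‖(U s φ : BB) - (U t φ : BB)‖ ≤ 4 * |s - t| * C := by
    apply h1.norm_le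
    intro y hy
    rw [← sub_mul, norm_mul]
    have e1 := exp_diff (s * m y) (t * m y)
    have e2 : |s * m y - t * m y| ≤ 4 * |s - t| := by
      rw [← sub_mul, abs_mul, mul_comm]
      exact mul_le_mul_of_nonneg_right (h.mbd y hy) (abs_nonneg _)
    exact mul_le_mul (e1.trans e2) (hC y hy) (norm_nonneg _) (by positivity)
  exact h2

lemma continuousOn (h : MulSG m U) (x : EE) : ContinuousOn (fun t : ℝ => U t x) (Ici 0) := by
  rw [Metric.continuousOn_iff]
  intro t0 ht0 ε hε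
  have hx : (x : BB) ∈ closure (FF : Set BB) := x.2
  rw [Metric.mem_closure_iff] at hx
  obtain ⟨φ, ⟨g, hg⟩, hd⟩ := hx (ε / 3) (by positivity)
  set φ' : EE := ⟨φ, FF.le_topologicalClosure ⟨g, hg⟩⟩ with hφ'
  have hd' : ‖x - φ'‖ < ε / 3 := by
    rw [← dist_eq_norm]; exact hd
  obtain ⟨C, hC0, hC⟩ := exists_bd hg.1
  refine ⟨ε / (3 * (4 * C + 1)), by positivity, ?_⟩
  intro t ht htt
  have ht' : (0 : ℝ) ≤ t := ht
  have ht0' : (0 : ℝ) ≤ t0 := ht0
  rw [dist_eq_norm]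
  have e0 : U t x - U t0 x = U t (x - φ') + (U t φ' - U t0 φ') - U t0 (x - φ') := by
    rw [map_sub, map_sub]; abel
  rw [e0]
  have e1 : ‖U t (x - φ')‖ < ε / 3 := (h.apply_le ht' _).trans_lt hd'
  have e2 : ‖U t0 (x - φ')‖ < ε / 3 := (h.apply_le ht0' _).trans_lt hd'
  have e3 : ‖U t φ' - U t0 φ'‖ ≤ ε / 3 := by
    refine (h.lip (φ := φ') hg hC ht' ht0').trans ?_
    rw [Real.dist_eq] at htt
    have h1 : 4 * |t - t0| * C ≤ |t - t0| * (4 * C + 1) := by
      nlinarith [abs_nonneg (t - t0)]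
    refine h1.trans ?_
    have h2 : |t - t0| * (4 * C + 1) ≤ ε / (3 * (4 * C + 1)) * (4 * C + 1) := by
      gcongr
    refine h2.trans (le_of_eq ?_)
    field_simp
  calc ‖U t (x - φ') + (U t φ' - U t0 φ') - U t0 (x - φ')‖
      ≤ ‖U t (x - φ') + (U t φ' - U t0 φ')‖ + ‖U t0 (x - φ')‖ := norm_sub_le _ _
    _ ≤ ‖U t (x - φ')‖ + ‖U t φ' - U t0 φ'‖ + ‖U t0 (x - φ')‖ := by
        gcongr; exact norm_add_le _ _
    _ < ε := by linarith

/-- The family is a contraction semigroup. -/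
theorem csg (h : MulSG m U) : IsCSG U where
  zero := by
    apply eq_of_rep
    intro φ g hg
    apply Subtype.ext
    refine ((h.act 0 (le_refl _) φ g hg).congr (g' := g) ?_).unique hg
    intro y _
    simp
  add := by
    intro s t hs ht
    apply eq_of_rep
    intro φ g hg
    apply Subtype.ext
    have h1 := h.act (s + t) (add_nonneg hs ht) φ g hg
    have h2 := h.act s hs _ _ (h.act t ht φ g hg)
    refine (h1.congr ?_).unique h2
    intro y _
    rw [← mul_assoc, ← Complex.exp_add]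
    congr 2
    push_cast
    ring
  cont := h.continuousOn
  bound := h.bound

end MulSG

end Pool.Agent.Cogen
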