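import Mathlib

set_option autoImplicit false

open Filter Topology MeasureTheory Set

namespace Pool.Agent.Cogen

/-- Splitting an interval around a bad point. -/
lemma split_bound {G : ℝ → ℂ} {a b c δ B : ℝ} (hab : a ≤ b) (hac : a ≤ c) (hcb : c ≤ b)
    (hδ : 0 < δ) (hB : 0 ≤ B) (hG : ContinuousOn G (Icc a b)) (hG1 : ∀ y ∈ Icc a b, ‖G y‖ ≤ 1)
    (h1 : a ≤ c - δ → ‖∫ y in a..(c - δ), G y‖ ≤ B)
    (h2 : c + δ ≤ b → ‖∫ y in (c + δ)..b, G y‖ ≤ B) :
    ‖∫ y in a..b, G y‖ ≤ 2 * δ + 2 * B := by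
  set α := max a (c - δ) with hα
  set β := min b (c + δ) with hβ
  have haα : a ≤ α := le_max_left _ _
  have hαc : α ≤ c := max_le hac (by linarith)
  have hcβ : c ≤ β := le_min hcb (by linarith)
  have hβb : β ≤ b := min_le_left _ _
  have hint : ∀ u v : ℝ, u ∈ Icc a b → v ∈ Icc a b → IntervalIntegrable G volume u v := by
    intro u v hu hv
    apply ContinuousOn.intervalIntegrable
    exact hG.mono (uIcc_subset_Icc hu hv)
  have ma : a ∈ Icc a b := ⟨le_refl _, hab⟩
  have mb : b ∈ Icc a b := ⟨hab, le_refl _⟩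
  have mα : α ∈ Icc a b := ⟨haα, hαc.trans hcb⟩
  have mβ : β ∈ Icc a b := ⟨hac.trans hcβ, hβb⟩
  have hsplit : ∫ y in a..b, G y = (∫ y in a..α, G y) + (∫ y in α..β, G y) + ∫ y in β..b, G y := by
    rw [intervalIntegral.integral_add_adjacent_intervals (hint a α ma mα) (hint α β mα mβ),
      intervalIntegral.integral_add_adjacent_intervals (hint a β ma mβ) (hint β b mβ mb)]
  have hb1 : ‖∫ y in a..α, G y‖ ≤ B := by
    rcases le_or_gt a (c - δ) with h | h
    · have : α = c - δ := max_eq_right h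
      rw [this]; exact h1 h
    · have : α = a := max_eq_left h.le
      rw [this]; simpa using hB
  have hb3 : ‖∫ y in β..b, G y‖ ≤ B := by
    rcases le_or_gt (c + δ) b with h | h
    · have : β = c + δ := min_eq_right h
      rw [this]; exact h2 h
    · have : β = b := min_eq_left h.le
      rw [this]; simpa using hB
  have hb2 : ‖∫ y in α..β, G y‖ ≤ 2 * δ := by
    have h := intervalIntegral.norm_integral_le_of_norm_le_const (a := α) (b := β) (f := G) (C := 1)
      (by
        intro y hy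
        rw [uIoc_of_le (hαc.trans hcβ)] at hy
        exact hG1 y ⟨haα.trans hy.1.le, hy.2.trans hβb⟩)
    refine h.trans ?_
    rw [one_mul, abs_of_nonneg (by linarith)]
    have e1 : c - δ ≤ α := le_max_right _ _
    have e2 : β ≤ c + δ := min_le_right _ _
    linarith
  rw [hsplit]
  calc ‖(∫ y in a..α, G y) + (∫ y in α..β, G y) + ∫ y in β..b, G y‖
      ≤ ‖∫ y in a..α, G y‖ + ‖∫ y in α..β, G y‖ + ‖∫ y in β..b, G y‖ := norm_add₃_le
    _ ≤ B + 2 * δ + B := by gcongr
    _ = 2 * δ + 2 * B := by ring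

/-- A strongly increasing continuous function is large away from a point. -/
lemma exists_center {h : ℝ → ℝ} {a b μ : ℝ} (hab : a ≤ b)
    (hc : ContinuousOn h (Icc a b))
    (hm : ∀ x ∈ Icc a b, ∀ y ∈ Icc a b, x ≤ y → μ * (y - x) ≤ h y - h x) :
    ∃ c ∈ Icc a b, ∀ x ∈ Icc a b, (x < c → h x ≤ -(μ * (c - x))) ∧ (c < x → μ * (x - c) ≤ h x) := by
  have ma : a ∈ Icc a b := ⟨le_refl _, hab⟩
  have mb : b ∈ Icc a b := ⟨hab, le_refl _⟩
  rcases le_or_gt 0 (h a) with ha | ha
  · refine ⟨a, ma, fun x hx => ⟨fun hlt => absurd hx.1 (not_le.mpr hlt), fun _ => ?_⟩⟩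
    have := hm a ma x hx hx.1
    linarith
  rcases le_or_gt (h b) 0 with hb | hb
  · refine ⟨b, mb, fun x hx => ⟨fun _ => ?_, fun hlt => absurd hx.2 (not_le.mpr hlt)⟩⟩
    have := hm x hx b mb hx.2
    linarith
  have himg := intermediate_value_Icc hab hc
  have h0 : (0 : ℝ) ∈ Icc (h a) (h b) := ⟨ha.le, hb.le⟩
  obtain ⟨c, hcm, hc0⟩ := himg h0
  refine ⟨c, hcm, fun x hx => ⟨fun hlt => ?_, fun hlt => ?_⟩⟩
  · have := hm x hx c hcm hlt.le
    linarith
  · have := hm c hcm x hx hlt.le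
    linarith

/-- First van der Corput estimate, for a solution of `G' = i p G`. -/
lemma vdC1 {G : ℝ → ℂ} {p p' : ℝ → ℝ} {a b ν σ : ℝ} (hab : a ≤ b)
    (hG : ∀ y ∈ Icc a b, HasDerivAt G (Complex.I * p y * G y) y)
    (hp : ∀ y ∈ Icc a b, HasDerivAt p (p' y) y) (hp' : ContinuousOn p' (Icc a b))
    (hG1 : ∀ y ∈ Icc a b, ‖G y‖ ≤ 1) (hν : 0 < ν) (hν' : ∀ y ∈ Icc a b, ν ≤ |p y|)
    (hσ : σ = 1 ∨ σ = -1) (hsgn : ∀ y ∈ Icc a b, 0 ≤ σ * p' y) :
    ‖∫ y in a..b, G y‖ ≤ 4 / ν := by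
  have hu : uIcc a b = Icc a b := uIcc_of_le hab
  have ma : a ∈ Icc a b := ⟨le_refl _, hab⟩
  have mb : b ∈ Icc a b := ⟨hab, le_refl _⟩
  have hp0 : ∀ y ∈ Icc a b, p y ≠ 0 := by
    intro y hy h0
    have := hν' y hy
    rw [h0, abs_zero] at this
    linarith
  have hpc : ContinuousOn p (Icc a b) := fun y hy => (hp y hy).continuousAt.continuousWithinAt
  have hGc : ContinuousOn G (Icc a b) := fun y hy => (hG y hy).continuousAt.continuousWithinAt
  -- the antiderivative pieces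
  set u : ℝ → ℂ := fun y => (Complex.I * (p y : ℂ))⁻¹ with hudef
  set u' : ℝ → ℂ := fun y => -(Complex.I * (p' y : ℂ)) / (Complex.I * (p y : ℂ)) ^ 2 with hu'def
  have hne : ∀ y ∈ Icc a b, Complex.I * (p y : ℂ) ≠ 0 := by
    intro y hy
    exact mul_ne_zero Complex.I_ne_zero (by exact_mod_cast hp0 y hy)
  have hud : ∀ y ∈ Icc a b, HasDerivAt u (u' y) y := by
    intro y hy
    have h1 : HasDerivAt (fun y => (p y : ℂ)) (p' y : ℂ) y := (hp y hy).ofReal_comp
    have h2 : HasDerivAt (fun y => Complex.I * (p y : ℂ)) (Complex.I * (p' y : ℂ)) y :=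
      h1.const_mul _
    exact h2.fun_inv (hne y hy)
  have hu'c : ContinuousOn u' (Icc a b) := by
    apply ContinuousOn.div
    · exact (continuousOn_const.mul (Complex.continuous_ofReal.comp_continuousOn hp')).neg
    · exact (continuousOn_const.mul (Complex.continuous_ofReal.comp_continuousOn hpc)).pow 2
    · intro y hy; exact pow_ne_zero 2 (hne y hy)
  have hvc : ContinuousOn (fun y => Complex.I * (p y : ℂ) * G y) (Icc a b) :=
    (continuousOn_const.mul (Complex.continuous_ofReal.comp_continuousOn hpc)).mul hGc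
  have hparts := intervalIntegral.integral_mul_deriv_eq_deriv_mul (a := a) (b := b)
    (u := u) (v := G) (u' := u') (v' := fun y => Complex.I * (p y : ℂ) * G y)
    (by rw [hu]; exact hud) (by rw [hu]; exact hG)
    (ContinuousOn.intervalIntegrable (by rw [hu]; exact hu'c))
    (ContinuousOn.intervalIntegrable (by rw [hu]; exact hvc))
  have hlhs : ∫ y in a..b, u y * (Complex.I * (p y : ℂ) * G y) = ∫ y in a..b, G y := by
    apply intervalIntegral.integral_congr
    intro y hy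
    rw [hu] at hy
    simp only [hudef]
    rw [← mul_assoc, inv_mul_cancel₀ (hne y hy), one_mul]
  rw [hlhs] at hparts
  have hun : ∀ y ∈ Icc a b, ‖u y‖ ≤ 1 / ν := by
    intro y hy
    simp only [hudef]
    rw [norm_inv, norm_mul, Complex.norm_I, one_mul, Complex.norm_real, Real.norm_eq_abs,
      ← one_div]
    exact one_div_le_one_div_of_le hν (hν' y hy)
  have hbd : ∀ y ∈ Icc a b, ‖u y * G y‖ ≤ 1 / ν := by
    intro y hy
    rw [norm_mul]
    calc ‖u y‖ * ‖G y‖ ≤ (1 / ν) * 1 := by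
          gcongr
          · exact hun y hy
          · exact hG1 y hy
      _ = 1 / ν := mul_one _
  -- the remaining integral
  have hσ2 : |σ| = 1 := by rcases hσ with h | h <;> simp [h]
  have hinv : ∀ y ∈ Icc a b, |(p y)⁻¹| ≤ 1 / ν := by
    intro y hy
    rw [abs_inv, ← one_div]
    exact one_div_le_one_div_of_le hν (hν' y hy)
  have hder : ∀ y ∈ Icc a b, HasDerivAt (fun y => -(σ * (p y)⁻¹)) (σ * p' y / (p y) ^ 2) y := by
    intro y hy
    have h1 := ((hp y hy).fun_inv (hp0 y hy)).const_mul (-σ)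
    have e1 : (fun y => -(σ * (p y)⁻¹)) = fun y => -σ * (p y)⁻¹ := by
      funext z; ring
    have e2 : σ * p' y / (p y) ^ 2 = -σ * (-p' y / (p y) ^ 2) := by ring
    rw [e1, e2]
    exact h1
  have hdc : ContinuousOn (fun y => σ * p' y / (p y) ^ 2) (Icc a b) := by
    apply ContinuousOn.div
    · exact continuousOn_const.mul hp'
    · exact hpc.pow 2
    · intro y hy; exact pow_ne_zero 2 (hp0 y hy)
  have hint2 : ∫ y in a..b, σ * p' y / (p y) ^ 2 = -(σ * (p b)⁻¹) - -(σ * (p a)⁻¹) := by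
    apply intervalIntegral.integral_eq_sub_of_hasDerivAt
    · rw [hu]; exact hder
    · exact ContinuousOn.intervalIntegrable (by rw [hu]; exact hdc)
  have hrem : ‖∫ y in a..b, u' y * G y‖ ≤ 2 / ν := by
    have h1 : ‖∫ y in a..b, u' y * G y‖ ≤ ∫ y in a..b, σ * p' y / (p y) ^ 2 := by
      apply intervalIntegral.norm_integral_le_of_norm_le hab
      · filter_upwards with y hy
        have hy' : y ∈ Icc a b := ⟨hy.1.le, hy.2⟩
        have e1 : ‖u' y‖ = σ * p' y / (p y) ^ 2 := by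
          simp only [hu'def]
          rw [norm_div, norm_neg, norm_mul, Complex.norm_I, one_mul, norm_pow, norm_mul,
            Complex.norm_I, one_mul, Complex.norm_real, Complex.norm_real, Real.norm_eq_abs,
            Real.norm_eq_abs, sq_abs]
          congr 1
          have := hsgn y hy'
          calc |p' y| = |σ| * |p' y| := by rw [hσ2, one_mul]
            _ = |σ * p' y| := (abs_mul _ _).symm
            _ = σ * p' y := abs_of_nonneg this
        rw [norm_mul, e1]
        calc σ * p' y / (p y) ^ 2 * ‖G y‖ ≤ σ * p' y / (p y) ^ 2 * 1 := by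
              apply mul_le_mul_of_nonneg_left (hG1 y hy')
              exact div_nonneg (hsgn y hy') (sq_nonneg _)
          _ = σ * p' y / (p y) ^ 2 := mul_one _
      · exact ContinuousOn.intervalIntegrable (by rw [hu]; exact hdc)
    rw [hint2] at h1
    refine h1.trans ?_
    have h2 : -(σ * (p b)⁻¹) - -(σ * (p a)⁻¹) ≤ |σ * (p b)⁻¹| + |σ * (p a)⁻¹| := by
      have := neg_abs_le (σ * (p b)⁻¹)
      have := le_abs_self (σ * (p a)⁻¹)
      linarith
    refine h2.trans ?_
    rw [abs_mul, abs_mul, hσ2, one_mul, one_mul]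
    have := hinv a ma
    have := hinv b mb
    have e : 2 / ν = 1 / ν + 1 / ν := by ring
    linarith
  rw [hparts]
  calc ‖u b * G b - u a * G a - ∫ y in a..b, u' y * G y‖
      ≤ ‖u b * G b - u a * G a‖ + ‖∫ y in a..b, u' y * G y‖ := norm_sub_le _ _
    _ ≤ ‖u b * G b‖ + ‖u a * G a‖ + ‖∫ y in a..b, u' y * G y‖ := by
        gcongr; exact norm_sub_le _ _
    _ ≤ 1 / ν + 1 / ν + 2 / ν := by
        gcongr
        · exact hbd b mb
        · exact hbd a ma
    _ = 4 / ν := by ring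

/-- Strong monotonicity from a derivative bound. -/
lemma strong_mono {h h' : ℝ → ℝ} {a b μ : ℝ}
    (hd : ∀ y ∈ Icc a b, HasDerivAt h (h' y) y) (hμ : ∀ y ∈ Icc a b, μ ≤ h' y) :
    ∀ x ∈ Icc a b, ∀ y ∈ Icc a b, x ≤ y → μ * (y - x) ≤ h y - h x := by
  intro x hx y hy hxy
  have hc : ContinuousOn h (Icc a b) := fun z hz => (hd z hz).continuousAt.continuousWithinAt
  refine (convex_Icc a b).mul_sub_le_image_sub_of_le_deriv hc ?_ ?_ x hx y hy hxy
  · intro z hz
    exact (hd z (interior_subset hz)).differentiableAt.differentiableWithinAt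
  · intro z hz
    rw [(hd z (interior_subset hz)).deriv]
    exact hμ z (interior_subset hz)

/-- Second van der Corput estimate. -/
lemma vdC2 {G : ℝ → ℂ} {p p' : ℝ → ℝ} {a b μ σ δ : ℝ} (hab : a ≤ b)
    (hG : ∀ y ∈ Icc a b, HasDerivAt G (Complex.I * p y * G y) y)
    (hp : ∀ y ∈ Icc a b, HasDerivAt p (p' y) y) (hp' : ContinuousOn p' (Icc a b))
    (hG1 : ∀ y ∈ Icc a b, ‖G y‖ ≤ 1) (hμ : 0 < μ) (hδ : 0 < δ)
    (hσ : σ = 1 ∨ σ = -1) (hsgn : ∀ y ∈ Icc a b, μ ≤ σ * p' y) :
    ‖∫ y in a..b, G y‖ ≤ 2 * δ + 2 * (4 / (μ * δ)) := by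
  have hσ2 : |σ| = 1 := by rcases hσ with h | h <;> simp [h]
  have hGc : ContinuousOn G (Icc a b) := fun y hy => (hG y hy).continuousAt.continuousWithinAt
  have hd : ∀ y ∈ Icc a b, HasDerivAt (fun y => σ * p y) (σ * p' y) y :=
    fun y hy => (hp y hy).const_mul σ
  obtain ⟨c, hc, hcx⟩ := exists_center (h := fun y => σ * p y) (μ := μ) hab
    (fun y hy => (hd y hy).continuousAt.continuousWithinAt) (strong_mono hd hsgn)
  have habs : ∀ y, |σ * p y| = |p y| := fun y => by rw [abs_mul, hσ2, one_mul]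
  refine split_bound hab hc.1 hc.2 hδ (by positivity) hGc hG1 ?_ ?_
  · intro hac
    have hsub : Icc a (c - δ) ⊆ Icc a b := Icc_subset_Icc_right (by linarith [hc.2])
    refine vdC1 (σ := σ) hac (fun y hy => hG y (hsub hy)) (fun y hy => hp y (hsub hy))
      (hp'.mono hsub) (fun y hy => hG1 y (hsub hy)) (by positivity) ?_ hσ
      (fun y hy => hμ.le.trans (hsgn y (hsub hy)))
    intro y hy
    have h1 := (hcx y (hsub hy)).1 (by linarith [hy.2])
    rw [← habs y]
    have h2 : μ * δ ≤ μ * (c - y) := by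
      apply mul_le_mul_of_nonneg_left _ hμ.le
      linarith [hy.2]
    have h3 := neg_abs_le (σ * p y)
    linarith
  · intro hcb
    have hsub : Icc (c + δ) b ⊆ Icc a b := Icc_subset_Icc_left (by linarith [hc.1])
    refine vdC1 (σ := σ) hcb (fun y hy => hG y (hsub hy)) (fun y hy => hp y (hsub hy))
      (hp'.mono hsub) (fun y hy => hG1 y (hsub hy)) (by positivity) ?_ hσ
      (fun y hy => hμ.le.trans (hsgn y (hsub hy)))
    intro y hy
    have h1 := (hcx y (hsub hy)).2 (by linarith [hy.1])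
    rw [← habs y]
    have h2 : μ * δ ≤ μ * (y - c) := by
      apply mul_le_mul_of_nonneg_left _ hμ.le
      linarith [hy.1]
    have h3 := le_abs_self (σ * p y)
    linarith

/-- Third van der Corput estimate. -/
lemma vdC3 {G : ℝ → ℂ} {p p' p'' : ℝ → ℝ} {a b κ δ : ℝ} (hab : a ≤ b)
    (hG : ∀ y ∈ Icc a b, HasDerivAt G (Complex.I * p y * G y) y)
    (hp : ∀ y ∈ Icc a b, HasDerivAt p (p' y) y)
    (hp' : ∀ y ∈ Icc a b, HasDerivAt p' (p'' y) y)
    (hG1 : ∀ y ∈ Icc a b, ‖G y‖ ≤ 1) (hκ : 0 < κ) (hδ : 0 < δ)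
    (hsgn : ∀ y ∈ Icc a b, p'' y ≤ -κ) :
    ‖∫ y in a..b, G y‖ ≤ 6 * δ + 16 / (κ * δ ^ 2) := by
  have hGc : ContinuousOn G (Icc a b) := fun y hy => (hG y hy).continuousAt.continuousWithinAt
  have hp'c : ContinuousOn p' (Icc a b) :=
    fun y hy => (hp' y hy).continuousAt.continuousWithinAt
  have hd : ∀ y ∈ Icc a b, HasDerivAt (fun y => -p' y) (-p'' y) y :=
    fun y hy => (hp' y hy).neg
  obtain ⟨c, hc, hcx⟩ := exists_center (h := fun y => -p' y) (μ := κ) hab
    (fun y hy => (hd y hy).continuousAt.continuousWithinAt)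
    (strong_mono hd (fun y hy => by linarith [hsgn y hy]))
  have hB : 2 * δ + 2 * (4 / (κ * δ * δ)) = 2 * δ + 8 / (κ * δ ^ 2) := by
    rw [show κ * δ * δ = κ * δ ^ 2 by ring]; ring
  have hfin : 2 * δ + 2 * (2 * δ + 2 * (4 / (κ * δ * δ))) = 6 * δ + 16 / (κ * δ ^ 2) := by
    rw [hB]; ring
  rw [← hfin]
  refine split_bound hab hc.1 hc.2 hδ (by positivity) hGc hG1 ?_ ?_
  · intro hac
    have hsub : Icc a (c - δ) ⊆ Icc a b := Icc_subset_Icc_right (by linarith [hc.2])
    refine vdC2 (σ := 1) hac (fun y hy => hG y (hsub hy)) (fun y hy => hp y (hsub hy))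
      (hp'c.mono hsub) (fun y hy => hG1 y (hsub hy)) (by positivity) hδ (Or.inl rfl) ?_
    intro y hy
    have h1 := (hcx y (hsub hy)).1 (by linarith [hy.2])
    have h2 : κ * δ ≤ κ * (c - y) := by
      apply mul_le_mul_of_nonneg_left _ hκ.le
      linarith [hy.2]
    linarith
  · intro hcb
    have hsub : Icc (c + δ) b ⊆ Icc a b := Icc_subset_Icc_left (by linarith [hc.1])
    refine vdC2 (σ := -1) hcb (fun y hy => hG y (hsub hy)) (fun y hy => hp y (hsub hy))
      (hp'c.mono hsub) (fun y hy => hG1 y (hsub hy)) (by positivity) hδ (Or.inr rfl) ?_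
    intro y hy
    have h1 := (hcx y (hsub hy)).2 (by linarith [hy.1])
    have h2 : κ * δ ≤ κ * (y - c) := by
      apply mul_le_mul_of_nonneg_left _ hκ.le
      linarith [hy.1]
    linarith

end Pool.Agent.Cogen
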