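import Mathlib
import Pool.Agent.MP_413ec1_an.Space
import Pool.Agent.MP_413ec1_an.VdC

set_option autoImplicit false

open Filter Topology MeasureTheory Set
open scoped NNReal BoundedContinuousFunction

namespace Pool.Agent.Cogen

lemma one_sub_ne (r : ℝ) : (1 : ℂ) - Complex.I * (r : ℂ) ≠ 0 := by
  intro h
  have := congrArg Complex.re h
  simp at this

namespace MulSG

variable {m : ℝ → ℝ} {U : ℝ → EE →L[ℂ] EE}

/-- The generator acts on wave packets by `i m(y)`. -/
lemma tendsto_gen (h : MulSG m U) {ψ χ : EE} {g : ℝ → ℂ} (hψ : Rep (ψ : BB) g)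
    (hχ : Rep (χ : BB) (fun y => Complex.I * (m y : ℂ) * g y)) :
    Tendsto (fun t : ℝ => ((t : ℂ)⁻¹) • (U t ψ - ψ)) (𝓝[>] 0) (𝓝 χ) := by
  obtain ⟨C, hC0, hC⟩ := exists_bd hψ.1
  rw [tendsto_iff_norm_sub_tendsto_zero]
  have hlim : Tendsto (fun t : ℝ => 16 * t * C) (𝓝[>] 0) (𝓝 0) := by
    have h1 : Tendsto (fun t : ℝ => 16 * t * C) (𝓝 0) (𝓝 (16 * 0 * C)) := by
      apply Continuous.tendsto
      fun_prop
    rw [mul_zero, zero_mul] at h1
    exact h1.mono_left nhdsWithin_le_nhds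
  refine squeeze_zero' (Eventually.of_forall fun t => norm_nonneg _) ?_ hlim
  have hsmall : ∀ᶠ t : ℝ in 𝓝[>] 0, t < 1 / 4 :=
    (eventually_lt_nhds (by norm_num : (0 : ℝ) < 1/4)).filter_mono nhdsWithin_le_nhds
  filter_upwards [self_mem_nhdsWithin, hsmall] with t ht ht4
  have ht0 : (0 : ℝ) < t := ht
  have h1 := ((h.act t ht0.le ψ g hψ).sub hψ).smul ((t : ℂ)⁻¹)
  have h2 := h1.sub hχ
  have e0 : ‖((t : ℂ)⁻¹) • (U t ψ - ψ) - χ‖ =
      ‖((t : ℂ)⁻¹) • ((U t ψ : BB) - (ψ : BB)) - (χ : BB)‖ := rfl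
  rw [e0]
  apply h2.norm_le
  intro y hy
  have htc : (t : ℂ) ≠ 0 := by exact_mod_cast ht0.ne'
  have hm := h.mbd y hy
  have hx : ‖Complex.I * ((t * m y : ℝ) : ℂ)‖ = |t * m y| := by
    rw [norm_mul, Complex.norm_I, one_mul, Complex.norm_real, Real.norm_eq_abs]
  have hxt : |t * m y| ≤ 4 * t := by
    rw [abs_mul, abs_of_pos ht0]
    nlinarith [abs_nonneg (m y)]
  have hx1 : ‖Complex.I * ((t * m y : ℝ) : ℂ)‖ ≤ 1 := by
    rw [hx]; linarith
  have hest := Complex.norm_exp_sub_one_sub_id_le hx1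
  have hrw : (t : ℂ)⁻¹ * (Complex.exp (Complex.I * ((t * m y : ℝ) : ℂ)) * g y - g y) -
      Complex.I * (m y : ℂ) * g y =
      (t : ℂ)⁻¹ * (Complex.exp (Complex.I * ((t * m y : ℝ) : ℂ)) - 1 -
        Complex.I * ((t * m y : ℝ) : ℂ)) * g y := by
    push_cast
    field_simp
  rw [hrw, norm_mul, norm_mul, norm_inv, Complex.norm_real, Real.norm_eq_abs, abs_of_pos ht0]
  have h3 : ‖Complex.exp (Complex.I * ((t * m y : ℝ) : ℂ)) - 1 -
      Complex.I * ((t * m y : ℝ) : ℂ)‖ ≤ (4 * t) ^ 2 := by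
    refine hest.trans ?_
    rw [hx]
    exact pow_le_pow_left₀ (abs_nonneg _) hxt 2
  calc t⁻¹ * ‖Complex.exp (Complex.I * ((t * m y : ℝ) : ℂ)) - 1 -
      Complex.I * ((t * m y : ℝ) : ℂ)‖ * ‖g y‖ ≤ t⁻¹ * (4 * t) ^ 2 * C := by
        gcongr
        exact hC y hy
    _ = 16 * t * C := by
        field_simp
        ring

/-- The resolvent acts on wave packets by `1 / (1 - i m(y))`. -/
lemma res_rep (h : MulSG m U) {φ : EE} {g : ℝ → ℂ} (hφ : Rep (φ : BB) g) :
    Rep ((res U φ : EE) : BB) (fun y => (1 - Complex.I * (m y : ℂ))⁻¹ * g y) := by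
  have hc1 : ContinuousOn (fun y : ℝ => (1 - Complex.I * (m y : ℂ))) (Icc (1/4) (1/2)) :=
    continuousOn_const.sub
      (continuousOn_const.mul (Complex.continuous_ofReal.comp_continuousOn h.mcont))
  have hc : ContinuousOn (fun y : ℝ => (1 - Complex.I * (m y : ℂ))⁻¹ * g y)
      (Icc (1/4) (1/2)) := (hc1.inv₀ (fun y _ => one_sub_ne _)).mul hφ.1
  have hc2 : ContinuousOn (fun y : ℝ => Complex.I * (m y : ℂ) *
      ((1 - Complex.I * (m y : ℂ))⁻¹ * g y)) (Icc (1/4) (1/2)) :=
    (continuousOn_const.mul (Complex.continuous_ofReal.comp_continuousOn h.mcont)).mul hc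
  obtain ⟨ψ, hψ⟩ := exists_repE hc
  obtain ⟨χ, hχ⟩ := exists_repE hc2
  have h1 := (h.csg.gen_iff' ψ χ).mp (h.tendsto_gen hψ hχ)
  have h2 : ψ - χ = φ := by
    apply Subtype.ext
    refine ((hψ.sub hχ).congr (g' := g) ?_).unique hφ
    intro y _
    have := one_sub_ne (m y)
    field_simp
  rw [h2] at h1
  rw [← h1]
  exact hψ

end MulSG

/-! ### The two concrete semigroups -/

/-- Shift of the first variable. -/
noncomputable def shA (t : ℝ≥0) : C(QQ, QQ) := ⟨fun q => (q.1 + t, q.2), by fun_prop⟩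

/-- Shift of the second variable. -/
noncomputable def shB (t : ℝ≥0) : C(QQ, QQ) := ⟨fun q => (q.1, q.2 + t), by fun_prop⟩

lemma ker_shA (y : ℝ) (t : ℝ≥0) (q : QQ) :
    ker y (shA t q) = Complex.exp (Complex.I * (((t : ℝ) * (-y) : ℝ) : ℂ)) * ker y q := by
  unfold ker shA
  rw [← Complex.exp_add]
  congr 1
  simp only [ContinuousMap.coe_mk, NNReal.coe_add]
  push_cast
  ring

lemma ker_shB (y : ℝ) (t : ℝ≥0) (q : QQ) :
    ker y (shB t q) = Complex.exp (Complex.I * (((t : ℝ) * (1 / y) : ℝ) : ℂ)) * ker y q := by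
  unfold ker shB
  rw [← Complex.exp_add]
  congr 1
  simp only [ContinuousMap.coe_mk, NNReal.coe_add]
  push_cast
  ring

lemma cont_mult {m : ℝ → ℝ} (hm : ContinuousOn m (Icc (1/4) (1/2))) (t : ℝ) :
    ContinuousOn (fun y : ℝ => Complex.exp (Complex.I * ((t * m y : ℝ) : ℂ)))
      (Icc (1/4) (1/2)) := by
  apply Complex.continuous_exp.comp_continuousOn
  apply continuousOn_const.mul
  apply Complex.continuous_ofReal.comp_continuousOn
  exact continuousOn_const.mul hm

lemma mA_cont : ContinuousOn (fun y : ℝ => -y) (Icc (1/4) (1/2)) := by fun_prop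

lemma mB_cont : ContinuousOn (fun y : ℝ => 1 / y) (Icc (1/4) (1/2)) := by
  apply ContinuousOn.div continuousOn_const continuousOn_id
  intro y hy
  have : (1/4 : ℝ) ≤ y := hy.1
  simp only [id]
  intro h
  rw [h] at this
  norm_num at this

lemma repA {φ : BB} {g : ℝ → ℂ} (h : Rep φ g) (t : ℝ≥0) :
    Rep (φ.compContinuous (shA t))
      (fun y => Complex.exp (Complex.I * (((t : ℝ) * (-y) : ℝ) : ℂ)) * g y) := by
  refine ⟨(cont_mult mA_cont t).mul h.1, fun q => ?_⟩
  rw [BoundedContinuousFunction.compContinuous_apply, h.2]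
  apply intervalIntegral.integral_congr
  intro y _
  simp only
  rw [ker_shA]
  ring

lemma repB {φ : BB} {g : ℝ → ℂ} (h : Rep φ g) (t : ℝ≥0) :
    Rep (φ.compContinuous (shB t))
      (fun y => Complex.exp (Complex.I * (((t : ℝ) * (1 / y) : ℝ) : ℂ)) * g y) := by
  refine ⟨(cont_mult mB_cont t).mul h.1, fun q => ?_⟩
  rw [BoundedContinuousFunction.compContinuous_apply, h.2]
  apply intervalIntegral.integral_congr
  intro y _
  simp only
  rw [ker_shB]
  ring

/-- The first shift as an operator. -/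
noncomputable def LA (t : ℝ) : BB →L[ℂ] BB :=
  BoundedContinuousFunction.compContinuousCLM ℂ ℂ (shA t.toNNReal)

/-- The second shift as an operator. -/
noncomputable def LB (t : ℝ) : BB →L[ℂ] BB :=
  BoundedContinuousFunction.compContinuousCLM ℂ ℂ (shB t.toNNReal)

lemma norm_LA_le (t : ℝ) : ‖LA t‖ ≤ 1 := by
  refine ContinuousLinearMap.opNorm_le_bound _ zero_le_one (fun φ => ?_)
  rw [one_mul]
  exact BoundedContinuousFunction.norm_compContinuous_le φ (shA t.toNNReal)

lemma norm_LB_le (t : ℝ) : ‖LB t‖ ≤ 1 := by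
  refine ContinuousLinearMap.opNorm_le_bound _ zero_le_one (fun φ => ?_)
  rw [one_mul]
  exact BoundedContinuousFunction.norm_compContinuous_le φ (shB t.toNNReal)

lemma LA_mem (t : ℝ) : ∀ φ ∈ FF, LA t φ ∈ FF := by
  rintro φ ⟨g, hg⟩
  exact ⟨_, repA hg _⟩

lemma LB_mem (t : ℝ) : ∀ φ ∈ FF, LB t φ ∈ FF := by
  rintro φ ⟨g, hg⟩
  exact ⟨_, repB hg _⟩

/-- The semigroup generated by `A`. -/
noncomputable def TT (t : ℝ) : EE →L[ℂ] EE := restr (LA t) (LA_mem t)

/-- The semigroup generated by `A⁻¹`. -/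
noncomputable def SS (t : ℝ) : EE →L[ℂ] EE := restr (LB t) (LB_mem t)

lemma norm_TT_le (t : ℝ) : ‖TT t‖ ≤ 1 := norm_restr_le (LA t) (LA_mem t) (norm_LA_le t)

lemma norm_SS_le (t : ℝ) : ‖SS t‖ ≤ 1 := norm_restr_le (LB t) (LB_mem t) (norm_LB_le t)

lemma TT_coe (t : ℝ) (φ : EE) :
    ((TT t φ : EE) : BB) = (φ : BB).compContinuous (shA t.toNNReal) := rfl

lemma SS_coe (t : ℝ) (φ : EE) :
    ((SS t φ : EE) : BB) = (φ : BB).compContinuous (shB t.toNNReal) := rfl

lemma TT_mul : MulSG (fun y => -y) TT where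
  mcont := mA_cont
  mbd := by
    intro y hy
    rw [abs_neg, abs_of_nonneg (by linarith [hy.1])]
    linarith [hy.2]
  bound := fun t _ => norm_TT_le t
  act := by
    intro t ht φ g hg
    have h1 := repA hg t.toNNReal
    rw [Real.coe_toNNReal t ht] at h1
    rw [TT_coe]
    exact h1

lemma SS_mul : MulSG (fun y => 1 / y) SS where
  mcont := mB_cont
  mbd := by
    intro y hy
    have h1 : (1/4 : ℝ) ≤ y := hy.1
    rw [abs_of_nonneg (by positivity), div_le_iff₀ (by linarith)]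
    linarith
  bound := fun t _ => norm_SS_le t
  act := by
    intro t ht φ g hg
    have h1 := repB hg t.toNNReal
    rw [Real.coe_toNNReal t ht] at h1
    rw [SS_coe]
    exact h1

/-- The resolvents at `1` of `A` and `A⁻¹` add up to the identity. -/
lemma res_sum (x : EE) : res TT x + res SS x = x := by
  have h : TT_mul.csg.resL + SS_mul.csg.resL = ContinuousLinearMap.id ℂ EE := by
    apply eq_of_rep
    intro φ g hg
    apply Subtype.ext
    refine (((TT_mul.res_rep hg).add (SS_mul.res_rep hg)).congr (g' := g) ?_).unique hg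
    intro y hy
    have hy0 : (y : ℂ) ≠ 0 := by
      have : (1/4 : ℝ) ≤ y := hy.1
      have h2 : y ≠ 0 := by
        intro h
        rw [h] at this
        norm_num at this
      exact_mod_cast h2
    have h1 := one_sub_ne (-y)
    have h2 := one_sub_ne (1 / y)
    push_cast at h1 h2 ⊢
    have h3 : (y : ℂ) - Complex.I ≠ 0 := by
      intro h
      apply h2
      rw [mul_one_div, sub_eq_zero, eq_div_iff hy0, one_mul]
      exact sub_eq_zero.mp h
    have h4 : (1 : ℂ) - Complex.I * -(y : ℂ) = Complex.I * ((y : ℂ) - Complex.I) := by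
      linear_combination Complex.I_mul_I
    have h5 : (1 : ℂ) - Complex.I * (1 / (y : ℂ)) = ((y : ℂ) - Complex.I) / y := by
      field_simp
    have h6 := Complex.I_ne_zero
    have h7 : (Complex.I * ((y : ℂ) - Complex.I))⁻¹ * g y +
        (((y : ℂ) - Complex.I) / y)⁻¹ * g y = g y * ((Complex.I⁻¹ + y) / ((y : ℂ) - Complex.I)) := by
      field_simp
    have h8 : Complex.I⁻¹ + (y : ℂ) = (y : ℂ) - Complex.I := by
      rw [Complex.inv_I]; ring
    rw [h4, h5, h7, h8, div_self h3, mul_one]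
  have := congrArg (fun L : EE →L[ℂ] EE => L x) h
  simpa using this

lemma gen_rel (x y : EE) :
    x = res TT (x - y) ↔ y = res SS (y - x) := by
  have h1 := res_sum (x - y)
  have h2 : res SS (y - x) = -res SS (x - y) := by
    have e : y - x = -(x - y) := by abel
    rw [e]
    have := map_neg SS_mul.csg.resL (x - y)
    simpa using this
  rw [h2]
  have h3 : res SS (x - y) = x - y - res TT (x - y) := by
    exact eq_sub_of_add_eq' h1
  rw [h3]
  constructor
  · intro h
    rw [← h]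
    abel
  · intro h
    have h4 : y - -(x - y - res TT (x - y)) = 0 := sub_eq_zero.mpr h
    have h5 : y - -(x - y - res TT (x - y)) = x - res TT (x - y) := by abel
    rw [h5] at h4
    exact sub_eq_zero.mp h4

/-- The cogenerator. -/
noncomputable def VV : EE →L[ℂ] EE := 1 - (2 : ℂ) • TT_mul.csg.resL

lemma VV_apply (x : EE) : VV x = x - (2 : ℂ) • res TT x := rfl

lemma VV_spec (x y : EE) (h : x = res TT (x - y)) : VV (y - x) = y + x := by
  rw [VV_apply]
  have h2 : res TT (y - x) = -res TT (x - y) := by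
    have e : y - x = -(x - y) := by abel
    rw [e]
    have := map_neg TT_mul.csg.resL (x - y)
    simpa using this
  rw [h2, ← h, two_smul]
  abel

lemma VV_rep {φ : EE} {g : ℝ → ℂ} (hg : Rep (φ : BB) g) :
    Rep ((VV φ : EE) : BB) (fun y => (1 - 2 * (1 + Complex.I * (y : ℂ))⁻¹) * g y) := by
  have h1 := hg.sub ((TT_mul.res_rep hg).smul 2)
  rw [VV_apply]
  refine h1.congr ?_
  intro y _
  push_cast
  ring

lemma VV_pow_rep (n : ℕ) {φ : EE} {g : ℝ → ℂ} (hg : Rep (φ : BB) g) :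
    Rep (((VV ^ n) φ : EE) : BB) (fun y => (1 - 2 * (1 + Complex.I * (y : ℂ))⁻¹) ^ n * g y) := by
  induction n with
  | zero => simpa using hg
  | succ n ih =>
    have h1 := VV_rep ih
    rw [pow_succ']
    refine (h1.congr ?_)
    intro y _
    ring

end Pool.Agent.Cogen
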